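import Mathlib

set_option autoImplicit false

namespace Pool.Agent.Results.MP_6750b5_co.NotNested

open Finset

/-- Vertices of the `k`-th symmetric tensor power: nondecreasing `k`-tuples. -/
abbrev Vert (n k : ℕ) : Type := {i : Fin k → Fin n // Monotone i}

/-- The multinomial coefficient `k! / (m_1! ... m_n!)` of the multiplicity vector of `i`. -/
def mult {n k : ℕ} (i : Fin k → Fin n) : ℕ :=
  Nat.multinomial univ (fun l : Fin n => (univ.filter (fun a => i a = l)).card)

/-- All rearrangements of `i`. -/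
def orb {n k : ℕ} (i : Fin k → Fin n) : Finset (Fin k → Fin n) :=
  univ.image (fun σ : Equiv.Perm (Fin k) => i ∘ σ)

/-- Edge weights of the `k`-th symmetric tensor power of the graph with 0/1 weights `ω`. -/
noncomputable def wt {n : ℕ} (ω : Fin n → Fin n → ℝ) (k : ℕ) (i j : Vert n k) : ℝ :=
  (((mult i.1 : ℝ) * (mult j.1 : ℝ)) ^ (-(1 / 2 : ℝ))) *
    ∑ p ∈ orb i.1, ∑ q ∈ orb j.1, ∏ l, ω (p l) (q l)

/-- The star with centre `0` and three leaves. -/
noncomputable def star (a b : Fin 4) : ℝ := if (a = 0 ∧ b ≠ 0) ∨ (a ≠ 0 ∧ b = 0) then 1 else 0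

def cz {k : ℕ} (i : Fin k → Fin 4) : ℕ := ∑ a, if i a = 0 then 1 else 0

theorem cz_orb {k : ℕ} (i p : Fin k → Fin 4) (h : p ∈ orb i) : cz p = cz i := by
  obtain ⟨σ, _, rfl⟩ := mem_image.1 h
  exact Equiv.sum_comp σ (fun a => if i a = 0 then 1 else 0)

theorem par (i j : Vert 4 3) (h : wt star 3 i j ≠ 0) : cz i.1 + cz j.1 = 3 := by
  have h2 := (mul_ne_zero_iff.1 h).2
  obtain ⟨p, hp, h3⟩ := exists_ne_zero_of_sum_ne_zero h2
  obtain ⟨q, hq, h4⟩ := exists_ne_zero_of_sum_ne_zero h3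
  rw [← cz_orb _ _ hp, ← cz_orb _ _ hq]
  have h5 : ∀ l, (if p l = 0 then 1 else 0) + (if q l = 0 then 1 else 0) = 1 := by
    intro l
    have := prod_ne_zero_iff.1 h4 l (mem_univ l)
    unfold star at this
    by_cases a : p l = 0 <;> by_cases b : q l = 0 <;> simp_all
  unfold cz
  rw [← sum_add_distrib, sum_congr rfl (fun l _ => h5 l)]
  simp

theorem star_nonneg (a b : Fin 4) : 0 ≤ star a b := by
  unfold star; split_ifs <;> norm_num

def v (a : Fin 4) : Vert 4 2 := ⟨![0, a], by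
  intro x y h
  fin_cases x <;> fin_cases y <;> simp_all⟩

theorem pos (a b : Fin 4) (ha : a ≠ 0) (hb : b ≠ 0) : 0 < wt star 2 (v a) (v b) := by
  unfold wt
  apply mul_pos
  · apply Real.rpow_pos_of_pos
    apply mul_pos <;> exact_mod_cast Nat.multinomial_pos _ _
  · have hn : ∀ p q : Fin 2 → Fin 4, 0 ≤ ∏ l, star (p l) (q l) :=
      fun p q => prod_nonneg (fun l _ => star_nonneg _ _)
    refine sum_pos' (fun p _ => sum_nonneg (fun q _ => hn p q)) ⟨![0, a], ?_, ?_⟩
    · exact mem_image.2 ⟨1, mem_univ _, rfl⟩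
    · refine sum_pos' (fun q _ => hn _ q) ⟨![b, 0], ?_, ?_⟩
      · refine mem_image.2 ⟨Equiv.swap 0 1, mem_univ _, ?_⟩
        funext x
        fin_cases x <;> simp [v]
      · simp [star, ha, hb]

theorem result :
    ∃ (n : ℕ) (ω : Fin n → Fin n → ℝ), (∀ a b, ω a b = 0 ∨ ω a b = 1) ∧ (∀ a b, ω a b = ω b a) ∧
      (∀ a, ω a a = 0) ∧ ∃ k r : ℕ, 1 ≤ k ∧ k ≤ r ∧
        ¬ ∃ φ : Vert n k → Vert n r, Function.Injective φ ∧
          ∀ x y, x ≠ y → wt ω k x y ≤ wt ω r (φ x) (φ y) := by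
  refine ⟨4, star, ?_, ?_, ?_, 2, 3, by norm_num, by norm_num, ?_⟩
  · intro a b; unfold star; split_ifs <;> simp
  · intro a b; unfold star
    by_cases h : a = 0 <;> by_cases h' : b = 0 <;> simp [h, h']
  · intro a; unfold star; simp
  · rintro ⟨φ, _, h⟩
    have key : ∀ a b : Fin 4, a ≠ 0 → b ≠ 0 → a ≠ b → cz (φ (v a)).1 + cz (φ (v b)).1 = 3 := by
      intro a b ha hb hab
      apply par
      have hne : v a ≠ v b := by
        intro e
        have := congrFun (congrArg Subtype.val e) 1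
        exact hab (by simpa [v] using this)
      exact (lt_of_lt_of_le (pos a b ha hb) (h _ _ hne)).ne'
    have h1 := key 1 2 (by decide) (by decide) (by decide)
    have h2 := key 1 3 (by decide) (by decide) (by decide)
    have h3 := key 2 3 (by decide) (by decide) (by decide)
    omega

end Pool.Agent.Results.MP_6750b5_co.NotNested
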